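import Pool.Agent.H26.NetJ

namespace Pool.Agent.Results.MP_96faa3_co.NoFiniteExcl

open Pool.Agent.H26.Comp

theorem result (C : Set (Matroid ℕ)) (hC : C = Gammoid ∨ C = SBO ∨ C = BO)
    (F : Set (Matroid ℕ)) (hF : F.Finite) (hFC : ∀ M ∈ F, M ∉ C) :
    ∃ K : Set (Matroid ℕ), Complete K ∧ (∀ M ∈ F, M ∉ K) ∧ ¬ K ⊆ C :=
  no_excl C hC hF hFC

end Pool.Agent.Results.MP_96faa3_co.NoFiniteExcl
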